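import Pool.Agent.TH404.AK.Sdc3
import Pool.Agent.R535.AK.GeoQ
import Pool.Agent.H170R2.PC.Primes
import Pool.Agent.H170R2.PC.Defs

/-!
# Residue classes modulo random primes
-/

set_option autoImplicit false

namespace Pool.Agent.R509.RP

open Filter Finset Pool.Agent.R535.AK Pool.Agent.H170R2.PC

/-- the primes `p` with `x ≤ p < 2 x` -/
noncomputable def Pr (x : ℝ) : Finset ℕ :=
  (range ⌈2 * x⌉₊).filter (fun p : ℕ => p.Prime ∧ x ≤ (p : ℝ))

theorem mem_Pr {x : ℝ} {p : ℕ} : p ∈ Pr x ↔ p.Prime ∧ x ≤ (p : ℝ) ∧ (p : ℝ) < 2 * x := by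
  unfold Pr
  rw [mem_filter, mem_range, Nat.lt_ceil]
  tauto

open Classical in
/-- the integers `n`, `u < n ≤ u + L`, in the class `a p` modulo `p` for some `p ∈ Q` -/
noncomputable def covered (Q : Finset ℕ) (a : (p : ℕ) → ZMod p) (u : ℤ) (L : ℕ) : Finset ℤ :=
  (Ioc u (u + L)).filter (fun n : ℤ => ∃ p ∈ Q, (n : ZMod p) = a p)

/-- For every choice of residue classes and every interval of length `L ≥ K x` the classes modulo the
primes in `Q` contain at least `c |Q| L / x` integers of the interval. -/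
def Spread (K c x : ℝ) (Q : Finset ℕ) : Prop :=
  ∀ (a : (p : ℕ) → ZMod p) (u : ℤ) (L : ℕ), K * x ≤ L →
    c * (Q.card : ℝ) * L / x ≤ ((covered Q a u L).card : ℝ)

open Classical in
/-- For all large `x` and `M ≤ |Pr x| ^ t`, all but the proportion `2 ^ (-M)` of the `M`-element sets of
primes in `[x, 2x)` are spread. -/
def AlmostAllSpread (K t : ℝ) : Prop :=
  ∃ c x₀ : ℝ, 0 < c ∧ ∀ x : ℝ, x₀ ≤ x → ∀ M : ℕ, (M : ℝ) ≤ ((Pr x).card : ℝ) ^ t →
    2 ^ M * (((Pr x).powersetCard M).filter (fun Q => ¬ Spread K c x Q)).card ≤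
      (Pr x).card.choose M

/-- the number `n` as a point of `ℝ ^ 1` -/
noncomputable def toE (n : ℤ) : EuclideanSpace ℝ (Fin 1) := WithLp.toLp 2 (fun _ => (n : ℝ))

theorem toE_apply (n : ℤ) (i : Fin 1) : toE n i = n := rfl

theorem dist_toE (m n : ℤ) : dist (toE m) (toE n) = |(m : ℝ) - n| := by
  rw [EuclideanSpace.dist_eq]
  simp only [Fin.sum_univ_one, toE_apply]
  rw [Real.sqrt_sq (dist_nonneg)]
  exact Real.dist_eq _ _

theorem toE_inj : Function.Injective toE := by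
  intro m n h
  have := congrArg (fun v : EuclideanSpace ℝ (Fin 1) => v 0) h
  simp only [toE_apply] at this
  exact_mod_cast this

open Classical in
/-- the primes of `Q` as points -/
noncomputable def img (Q : Finset ℕ) : Finset (EuclideanSpace ℝ (Fin 1)) :=
  Q.image (fun p : ℕ => toE (p : ℤ))

theorem img_inj' : Function.Injective (fun p : ℕ => toE (p : ℤ)) := by
  intro p q h
  have := toE_inj h
  exact_mod_cast this

theorem img_inj : Function.Injective img := by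
  classical
  exact Finset.image_injective img_inj'

theorem img_card (Q : Finset ℕ) : (img Q).card = Q.card := by
  classical
  exact Finset.card_image_of_injective _ img_inj'

/-- a window of length at least `k p` contains `k` consecutive terms of every class modulo `p` -/
theorem progression {p k h : ℕ} (hp : 0 < p) (hk : k * p ≤ h) (r : ZMod p) (u : ℤ) :
    ∃ n₀ : ℤ, ∀ j : ℕ, j < k → u < n₀ + j * p ∧ n₀ + j * p ≤ u + h ∧
      ((n₀ + j * p : ℤ) : ZMod p) = r := by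
  have : NeZero p := ⟨hp.ne'⟩
  obtain ⟨s, hs⟩ : ∃ s : ℤ, (s : ZMod p) = r := ⟨(r.val : ℤ), by simp⟩
  refine ⟨u + 1 + (s - (u + 1)) % (p : ℤ), fun j hj => ?_⟩
  have hp' : (0 : ℤ) < p := by exact_mod_cast hp
  have h1 := Int.emod_nonneg (s - (u + 1)) hp'.ne'
  have h2 := Int.emod_lt_of_pos (s - (u + 1)) hp'
  have h3 : (0 : ℤ) ≤ j * p := by positivity
  have h4 : ((j : ℤ) + 1) * p ≤ h := by
    have : (j + 1) * p ≤ h := (Nat.mul_le_mul_right p hj).trans hk
    exact_mod_cast this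
  refine ⟨by linarith, by nlinarith, ?_⟩
  rw [← hs]
  have h5 : (((s - (u + 1)) % (p : ℤ) : ℤ) : ZMod p) = ((s - (u + 1) : ℤ) : ZMod p) := by
    rw [ZMod.intCast_mod]
  push_cast at h5 ⊢
  rw [h5]
  simp

/-- the windows of length `h` inside an interval of length `L` -/
theorem windows (Q : Finset ℕ) (a : (p : ℕ) → ZMod p) (u : ℤ) (h J L : ℕ) (hJ : J * h ≤ L)
    (w : ℕ) (hw : ∀ v : ℤ, w ≤ (covered Q a v h).card) : J * w ≤ (covered Q a u L).card := by
  classical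
  have h1 : ((range J).biUnion fun j => covered Q a (u + (j * h : ℕ)) h) ⊆ covered Q a u L := by
    intro n hn
    obtain ⟨j, hj, hn⟩ := mem_biUnion.1 hn
    unfold covered at hn ⊢
    rw [mem_filter, mem_Ioc] at hn ⊢
    have h2 : (j + 1) * h ≤ L := (Nat.mul_le_mul_right h (mem_range.1 hj)).trans hJ
    have h3 : ((j * h : ℕ) : ℤ) + h ≤ L := by
      have : j * h + h ≤ L := by linarith
      exact_mod_cast this
    have h4 : (0 : ℤ) ≤ ((j * h : ℕ) : ℤ) := by positivity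
    exact ⟨⟨by linarith [hn.1.1], by linarith [hn.1.2]⟩, hn.2⟩
  refine le_trans ?_ (card_le_card h1)
  rw [card_biUnion]
  · calc J * w = ∑ _j ∈ range J, w := by rw [sum_const, card_range, smul_eq_mul]
      _ ≤ _ := sum_le_sum fun j _ => hw _
  · intro i hi j hj hij
    refine disjoint_left.2 fun n hn1 hn2 => ?_
    unfold covered at hn1 hn2
    rw [mem_filter, mem_Ioc] at hn1 hn2
    have key : ∀ i j : ℕ, i < j → n ≤ u + (i * h : ℕ) + h → u + (j * h : ℕ) < n → False := by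
      intro i j hij a1 a2
      have h2 : (i + 1) * h ≤ j * h := Nat.mul_le_mul_right h hij
      have h3 : ((i * h : ℕ) : ℤ) + h ≤ ((j * h : ℕ) : ℤ) := by
        have : i * h + h ≤ j * h := by linarith
        exact_mod_cast this
      linarith
    rcases lt_or_gt_of_ne hij with h2 | h2
    · exact key i j h2 hn1.1.2 hn2.1.1
    · exact key j i h2 hn2.1.2 hn1.1.1

/-- a set of primes that is not spread is bad for the progressions -/
theorem bad_of_not_spread {k : ℕ} (hk : 1 ≤ k) {c x : ℝ} (hc : 0 < c) (hx : 1 ≤ x) {M : ℕ}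
    {Q : Finset ℕ} (hQ : Q ∈ (Pr x).powersetCard M)
    (hns : ¬ Spread (6 * k) (c / (6 * k)) x Q) :
    img Q ∈ badSets k c (1 / 2) ((⌈2 * k * x⌉₊ : ℕ) : ℝ) (img (Pr x)) M := by
  classical
  obtain ⟨hQ1, hQ2⟩ := mem_powersetCard.1 hQ
  have hk' : (1 : ℝ) ≤ k := by exact_mod_cast hk
  set h : ℕ := ⌈2 * k * x⌉₊ with hh
  have hh1 : 2 * k * x ≤ (h : ℝ) := Nat.le_ceil _
  have hkx : (1 : ℝ) ≤ k * x := by nlinarith
  have hh2 : (h : ℝ) ≤ 3 * k * x := by
    have := (Nat.ceil_lt_add_one (show (0 : ℝ) ≤ 2 * k * x by positivity)).le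
    linarith
  have hh0 : (0 : ℝ) < h := by linarith
  have hh0' : 0 < h := by exact_mod_cast hh0
  -- a window with few covered integers
  have hwin : ∃ (a : (p : ℕ) → ZMod p) (v : ℤ), ((covered Q a v h).card : ℝ) < c * M := by
    by_contra hcon
    push Not at hcon
    apply hns
    intro a u L hL
    rw [hQ2]
    set J : ℕ := L / h with hJ
    have hJ1 : J * h ≤ L := Nat.div_mul_le_self L h
    have hJ2 : (L : ℝ) / (2 * h) ≤ J := by
      have h1 : L < (J + 1) * h := by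
        have h8 := Nat.div_add_mod L h
        have h9 := Nat.mod_lt L hh0'
        rw [hJ]
        nlinarith
      have h2 : (L : ℝ) < (J + 1) * h := by exact_mod_cast h1
      have h3 : 2 * (h : ℝ) ≤ L := by linarith
      rw [div_le_iff₀ (by positivity)]
      nlinarith
    have h4 := windows Q a u h J L hJ1 ⌈c * M⌉₊ (fun v => Nat.ceil_le.2 (hcon a v))
    have h5 : ((J * ⌈c * M⌉₊ : ℕ) : ℝ) ≤ ((covered Q a u L).card : ℝ) := by exact_mod_cast h4
    refine le_trans ?_ h5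
    have hM : (0 : ℝ) ≤ c * M := by positivity
    calc c / (6 * k) * (M : ℝ) * L / x = (L : ℝ) / (2 * (3 * k * x)) * (c * M) := by
          field_simp
          ring
      _ ≤ (L : ℝ) / (2 * h) * (c * M) := by gcongr
      _ ≤ (J : ℝ) * ⌈c * M⌉₊ := by
          gcongr
          exact Nat.le_ceil _
      _ = _ := by push_cast; ring
  obtain ⟨a, v, hav⟩ := hwin
  unfold badSets
  refine mem_filter.2 ⟨mem_powersetCard.2 ⟨image_subset_image hQ1, by rw [img_card, hQ2]⟩, ?_⟩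
  refine ⟨toE '' (covered Q a v h : Set ℤ), ?_, ?_, (covered Q a v h).card, ?_, hav⟩
  · rintro _ ⟨m, hm, rfl⟩ _ ⟨n, hn, rfl⟩
    rw [dist_toE]
    unfold covered at hm hn
    rw [mem_coe, mem_filter, mem_Ioc] at hm hn
    have h1 : |m - n| ≤ (h : ℤ) := by
      rw [abs_le]
      constructor <;> linarith [hm.1.1, hm.1.2, hn.1.1, hn.1.2]
    exact_mod_cast h1
  · intro r hr
    unfold img at hr
    rw [coe_image] at hr
    obtain ⟨p, hp, rfl⟩ := hr
    have hp' : p ∈ Q := hp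
    have hpp := mem_Pr.1 (hQ1 hp')
    have hkp : k * p ≤ h := by
      have : (k : ℝ) * p ≤ h := by
        have h2 := hpp.2.2.le
        nlinarith
      exact_mod_cast this
    obtain ⟨n₀, hn⟩ := progression hpp.1.pos hkp (a p) v
    refine ⟨toE n₀, fun j hj => ⟨n₀ + j * p, ?_, ?_⟩⟩
    · rw [mem_coe]
      unfold covered
      rw [mem_filter, mem_Ioc]
      obtain ⟨h1, h2, h3⟩ := hn j hj
      exact ⟨⟨h1, h2⟩, p, hp', h3⟩
    · ext i
      simp only [toE_apply, PiLp.add_apply, PiLp.smul_apply, smul_eq_mul]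
      push_cast
      ring
  · let e := (covered Q a v h).equivFin
    refine ⟨fun i => {toE (e.symm i)}, ?_, ?_⟩
    · intro i y hy z hz
      rw [Set.mem_singleton_iff.1 hy, Set.mem_singleton_iff.1 hz, dist_self]
      norm_num
    · rintro _ ⟨n, hn, rfl⟩
      refine Set.mem_iUnion.2 ⟨e ⟨n, hn⟩, ?_⟩
      simp

theorem separated_img (x : ℝ) : Separated (1 / 2) (img (Pr x)) := by
  classical
  intro v hv w hw hne
  obtain ⟨p, _, rfl⟩ := mem_image.1 hv
  obtain ⟨q, _, rfl⟩ := mem_image.1 hw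
  refine ⟨0, ?_⟩
  simp only [toE_apply]
  have h1 : (p : ℤ) ≠ q := fun h => hne (by rw [h])
  have h2 : (1 : ℤ) ≤ |(p : ℤ) - q| := Int.one_le_abs (sub_ne_zero.2 h1)
  have h3 : (1 : ℝ) ≤ |((p : ℤ) : ℝ) - ((q : ℤ) : ℝ)| := by exact_mod_cast h2
  linarith

/-- the primes in `[x, 2x)` are many -/
theorem card_Pr {η : ℝ} (hη : 0 < η) (hη1 : η ≤ 1) :
    ∀ᶠ x : ℝ in atTop, x ^ (1 - η) ≤ ((Pr x).card : ℝ) := by
  filter_upwards [dyadic_primes hη hη1] with x hx
  exact hx _ fun p h1 h2 h3 => mem_Pr.2 ⟨h1, h2, h3⟩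

theorem good_succ {k : ℕ} {t : ℝ} (hg : Good 1 k t) : Good 1 (k + 1) t := by
  classical
  intro C
  obtain ⟨c, hc, h⟩ := hg C
  refine ⟨c, hc, fun δ H hδ hH V hV hHV N hN => ?_⟩
  refine le_trans (Nat.mul_le_mul_left _ (card_le_card ?_)) (h δ H hδ hH V hV hHV N hN)
  intro V' hV'
  unfold badSets at hV' ⊢
  rw [mem_filter] at hV' ⊢
  obtain ⟨h1, B, h2, h3, h4⟩ := hV'
  refine ⟨h1, B, h2, fun r hr => ?_, h4⟩
  obtain ⟨a, ha⟩ := h3 r hr
  exact ⟨a, fun j hj => ha j (by omega)⟩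

theorem spread_of_good {k : ℕ} (hk : 1 ≤ k) {t : ℝ} (hg : Good 1 k t) :
    AlmostAllSpread (6 * k) t := by
  classical
  obtain ⟨c, hc, hgood⟩ := hg 3
  have hev : ∀ᶠ x : ℝ in atTop, 1 ≤ x ∧ x ^ ((1 : ℝ) - 1 / 2) ≤ ((Pr x).card : ℝ) ∧
      (6 * k : ℝ) ≤ x ^ ((1 : ℝ) / 2) :=
    (eventually_ge_atTop 1).and ((card_Pr (by norm_num) (by norm_num)).and
      ((tendsto_rpow_atTop (by norm_num)).eventually_ge_atTop _))
  obtain ⟨x₀, hx₀⟩ := eventually_atTop.1 hev
  refine ⟨c / (6 * k), x₀, ?_, fun x hx M hM => ?_⟩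
  · have : (0 : ℝ) < k := by exact_mod_cast hk
    positivity
  obtain ⟨hx1, hcard, hkx⟩ := hx₀ x hx
  have hk' : (1 : ℝ) ≤ k := by exact_mod_cast hk
  set h : ℕ := ⌈2 * k * x⌉₊ with hh
  have hkx1 : (1 : ℝ) ≤ k * x := by nlinarith
  have hh1 : 2 * k * x ≤ (h : ℝ) := Nat.le_ceil _
  have hh2 : (h : ℝ) ≤ 3 * k * x := by
    have := (Nat.ceil_lt_add_one (show (0 : ℝ) ≤ 2 * k * x by positivity)).le
    linarith
  have hHV : (h : ℝ) / (1 / 2) ≤ (((img (Pr x)).card : ℕ) : ℝ) ^ (3 : ℝ) := by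
    rw [img_card]
    have hx0 : (0 : ℝ) < x := by linarith
    calc (h : ℝ) / (1 / 2) ≤ 6 * k * x := by linarith
      _ ≤ x ^ ((1 : ℝ) / 2) * x := by gcongr
      _ = (x ^ ((1 : ℝ) - 1 / 2)) ^ (3 : ℝ) := by
          rw [← Real.rpow_mul hx0.le]
          nth_rewrite 2 [← Real.rpow_one x]
          rw [← Real.rpow_add hx0]
          norm_num
      _ ≤ _ := by gcongr
  have hb := hgood (1 / 2) h (by norm_num) (by linarith) (img (Pr x)) (separated_img x) hHV M
    (by rw [img_card]; exact hM)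
  rw [img_card] at hb
  refine le_trans (Nat.mul_le_mul_left _ ?_) hb
  exact card_le_card_of_injOn img
    (fun Q hQ => bad_of_not_spread hk hc hx1 (mem_filter.1 hQ).1 (mem_filter.1 hQ).2)
    (img_inj.injOn)

theorem covered_le {α : ℝ} {N : ℕ} {Q : Finset ℕ} (hQ : ∀ p ∈ Q, InRange α N p)
    (a : (p : ℕ) → ZMod p) : (covered Q a 0 N).card ≤ coveredCount α N a := by
  classical
  unfold coveredCount
  have hfin : {n : ℕ | 1 ≤ n ∧ n ≤ N ∧ ∃ p : ℕ, InRange α N p ∧ (n : ZMod p) = a p}.Finite :=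
    (Set.finite_Icc 1 N).subset fun n hn => ⟨hn.1, hn.2.1⟩
  rw [Set.ncard_eq_toFinset_card _ hfin]
  refine card_le_card_of_injOn Int.toNat ?_ ?_
  · intro n hn
    unfold covered at hn
    rw [mem_coe, mem_filter, mem_Ioc] at hn
    obtain ⟨⟨h1, h2⟩, p, hp, h3⟩ := hn
    rw [Set.Finite.coe_toFinset]
    lift n to ℕ using h1.le
    have h1' : 0 < n := by exact_mod_cast h1
    refine ⟨by simpa using Nat.succ_le_of_lt h1', by simpa using h2, p, hQ p hp, by simpa using h3⟩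
  · intro m hm n hn hmn
    unfold covered at hm hn
    rw [mem_coe, mem_filter, mem_Ioc] at hm hn
    have h1 := hm.1.1
    have h2 := hn.1.1
    omega

open Classical in
/-- the version for `[1, N]` -/
theorem count_of_spread {K t : ℝ} (h : AlmostAllSpread K t) {α : ℝ} (hα0 : 0 < α) (hα1 : α < 1) :
    ∃ (c : ℝ) (N₀ : ℕ), 0 < c ∧ ∀ N : ℕ, N₀ ≤ N → ∀ M : ℕ,
      (M : ℝ) ≤ ((Pr ((N : ℝ) ^ α)).card : ℝ) ^ t →
      2 ^ M * (((Pr ((N : ℝ) ^ α)).powersetCard M).filter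
        (fun Q => ¬ ∀ a : (p : ℕ) → ZMod p,
          c * M * (N : ℝ) ^ (1 - α) ≤ ((covered Q a 0 N).card : ℝ))).card ≤
        (Pr ((N : ℝ) ^ α)).card.choose M := by
  obtain ⟨c, x₀, hc, hs⟩ := h
  have hlim : Tendsto (fun N : ℕ => (N : ℝ) ^ α) atTop atTop :=
    (tendsto_rpow_atTop hα0).comp tendsto_natCast_atTop_atTop
  have hev : ∀ᶠ N : ℕ in atTop, 1 ≤ N ∧ x₀ ≤ (N : ℝ) ^ α ∧ K ≤ (N : ℝ) ^ (1 - α) :=
    (eventually_ge_atTop 1).and ((hlim.eventually_ge_atTop x₀).and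
      (((tendsto_rpow_atTop (by linarith)).comp
          tendsto_natCast_atTop_atTop).eventually_ge_atTop K))
  obtain ⟨N₀, hN₀⟩ := eventually_atTop.1 hev
  refine ⟨c, N₀, hc, fun N hN M hM => ?_⟩
  obtain ⟨hN1, hx, hK⟩ := hN₀ N hN
  have hN0 : (0 : ℝ) < N := by exact_mod_cast hN1
  set x : ℝ := (N : ℝ) ^ α with hxd
  have hx0 : 0 < x := Real.rpow_pos_of_pos hN0 _
  have hxN : x * (N : ℝ) ^ (1 - α) = N := by
    rw [hxd, ← Real.rpow_add hN0]
    norm_num
  refine le_trans (Nat.mul_le_mul_left _ (card_le_card ?_)) (hs x hx M hM)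
  intro Q hQ
  rw [mem_filter] at hQ ⊢
  refine ⟨hQ.1, fun hsp => hQ.2 fun a => ?_⟩
  have h1 := hsp a 0 N (by rw [← hxN, mul_comm]; gcongr)
  refine le_trans (le_of_eq ?_) h1
  rw [(mem_powersetCard.1 hQ.1).2, mul_div_assoc]
  congr 1
  rw [eq_div_iff hx0.ne', mul_comm, hxN]

/-- the converse: the full range answers the question -/
theorem exponent_of_spread {K t : ℝ} (ht0 : 0 < t) (ht1 : t ≤ 1) (h : AlmostAllSpread K t) {α : ℝ}
    (hα0 : 0 < α) (hα1 : α < 1) : LowerExponent α (1 - α * (1 - t)) := by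
  classical
  obtain ⟨c, x₀, hc, hs⟩ := h
  intro ε hε
  have hlim : Tendsto (fun N : ℕ => (N : ℝ) ^ α) atTop atTop :=
    (tendsto_rpow_atTop hα0).comp tendsto_natCast_atTop_atTop
  -- losses
  set η : ℝ := min (ε / (2 * (1 + α))) 1 with hη
  have hη0 : 0 < η := lt_min (by positivity) one_pos
  have hη1 : η ≤ 1 := min_le_right _ _
  have hηε : α * η * t ≤ ε / 2 := by
    have h1 : η ≤ ε / (2 * (1 + α)) := min_le_left _ _
    have h2 : η * (2 * (1 + α)) ≤ ε := by rwa [le_div_iff₀ (by positivity)] at h1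
    have h3 : α * η * t ≤ α * η := by nlinarith [mul_pos hα0 hη0]
    nlinarith
  have hev : ∀ᶠ N : ℕ in atTop, 1 ≤ N ∧ x₀ ≤ (N : ℝ) ^ α ∧
      ((N : ℝ) ^ α) ^ (1 - η) ≤ ((Pr ((N : ℝ) ^ α)).card : ℝ) ∧
      K ≤ (N : ℝ) ^ (1 - α) ∧ 2 / c ≤ (N : ℝ) ^ (ε / 2) :=
    (eventually_ge_atTop 1).and ((hlim.eventually_ge_atTop x₀).and
      ((hlim.eventually (card_Pr hη0 hη1)).and
        ((((tendsto_rpow_atTop (by linarith)).comp
          tendsto_natCast_atTop_atTop).eventually_ge_atTop K).and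
          (((tendsto_rpow_atTop (by linarith)).comp
            tendsto_natCast_atTop_atTop).eventually_ge_atTop (2 / c)))))
  obtain ⟨N₀, hN₀⟩ := eventually_atTop.1 hev
  refine ⟨N₀, fun N hN a => ?_⟩
  obtain ⟨hN1, hx, hcard, hK, hcε⟩ := hN₀ N hN
  set x : ℝ := (N : ℝ) ^ α with hxd
  have hN0 : (0 : ℝ) < N := by exact_mod_cast hN1
  have hx0 : 0 < x := Real.rpow_pos_of_pos hN0 _
  have hx1 : 1 ≤ x := Real.one_le_rpow (by exact_mod_cast hN1) hα0.le
  set V : ℝ := ((Pr x).card : ℝ) with hV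
  have hV1 : 1 ≤ V := (Real.one_le_rpow hx1 (by linarith)).trans hcard
  set M : ℕ := ⌊V ^ t⌋₊ with hM
  have hM1 : (M : ℝ) ≤ V ^ t := Nat.floor_le (by positivity)
  have hVt : 1 ≤ V ^ t := Real.one_le_rpow hV1 ht0.le
  have hM2 : V ^ t / 2 ≤ M := by
    have h1 := Nat.lt_floor_add_one (V ^ t)
    have h2 : (1 : ℝ) ≤ M := by exact_mod_cast Nat.le_floor (by exact_mod_cast hVt)
    linarith
  have hM1' : 1 ≤ M := Nat.le_floor (by exact_mod_cast hVt)
  have hMV : M ≤ (Pr x).card := by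
    have h1 : V ^ t ≤ V ^ (1 : ℝ) := Real.rpow_le_rpow_of_exponent_le hV1 ht1
    rw [Real.rpow_one] at h1
    have h2 := hM1.trans h1
    rw [hV] at h2
    exact_mod_cast h2
  have hb := hs x hx M hM1
  -- a good set
  have hex : ∃ Q ∈ (Pr x).powersetCard M, Spread K c x Q := by
    by_contra hcon
    push Not at hcon
    have h1 : ((Pr x).powersetCard M).filter (fun Q => ¬ Spread K c x Q) = (Pr x).powersetCard M :=
      filter_true_of_mem hcon
    rw [h1, card_powersetCard] at hb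
    have h2 : 0 < (Pr x).card.choose M := Nat.choose_pos hMV
    have h3 : 2 ≤ 2 ^ M := by
      calc 2 = 2 ^ 1 := rfl
        _ ≤ 2 ^ M := Nat.pow_le_pow_right (by norm_num) hM1'
    nlinarith
  obtain ⟨Q, hQ, hsp⟩ := hex
  obtain ⟨hQ1, hQ2⟩ := mem_powersetCard.1 hQ
  have hxN : x * (N : ℝ) ^ (1 - α) = N := by
    rw [hxd, ← Real.rpow_add hN0]
    norm_num
  have h1 := hsp a 0 N (by rw [← hxN, mul_comm]; gcongr)
  have h2 : ((covered Q a 0 N).card : ℝ) ≤ (coveredCount α N a : ℝ) := by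
    exact_mod_cast covered_le (fun p hp => mem_Pr.1 (hQ1 hp)) a
  refine le_trans ?_ (h1.trans h2)
  rw [hQ2]
  have h3 : (N : ℝ) / x = (N : ℝ) ^ (1 - α) := by
    rw [div_eq_iff hx0.ne', mul_comm, hxN]
  calc (N : ℝ) ^ (1 - α * (1 - t) - ε)
      = (N : ℝ) ^ (α * t - ε / 2) * (N : ℝ) ^ (1 - α) * ((N : ℝ) ^ (ε / 2))⁻¹ := by
        rw [← Real.rpow_neg hN0.le, ← Real.rpow_add hN0, ← Real.rpow_add hN0]
        ring_nf
    _ ≤ (N : ℝ) ^ (α * (1 - η) * t) * (N : ℝ) ^ (1 - α) * (c / 2) := by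
        have h4 : (N : ℝ) ^ (α * t - ε / 2) ≤ (N : ℝ) ^ (α * (1 - η) * t) :=
          Real.rpow_le_rpow_of_exponent_le (by exact_mod_cast hN1) (by nlinarith)
        have h5 : ((N : ℝ) ^ (ε / 2))⁻¹ ≤ c / 2 := by
          rw [inv_le_comm₀ (by positivity) (by positivity)]
          rwa [inv_div]
        gcongr
    _ = c * (((N : ℝ) ^ α) ^ (1 - η)) ^ t / 2 * (N : ℝ) ^ (1 - α) := by
        rw [← Real.rpow_mul hN0.le, ← Real.rpow_mul hN0.le]
        ring
    _ ≤ c * (V ^ t / 2) * (N : ℝ) ^ (1 - α) := by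
        have h6 : (((N : ℝ) ^ α) ^ (1 - η)) ^ t ≤ V ^ t := by gcongr
        have : c * (((N : ℝ) ^ α) ^ (1 - η)) ^ t / 2 ≤ c * (V ^ t / 2) := by nlinarith
        gcongr
    _ ≤ c * M * (N : ℝ) ^ (1 - α) := by gcongr
    _ = c * (M : ℝ) * N / x := by
        rw [mul_div_assoc, h3]

end Pool.Agent.R509.RP
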